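import Pool.Agent.H242.GX.Stm

/-!
Project GX (helper242), GX-LM: the change of the logarithmic coordinates has bounded derivatives,
by helper261.
-/

open Set Filter Topology
open scoped ContDiff

namespace Pool.Agent.H261.GX
open Pool.Agent.H242.GX

/-- Smooth with bounded derivatives of positive order in the lower half plane. -/
def BD {E : Type*} [NormedAddCommGroup E] [NormedSpace ℝ E] (f : ℝ × ℝ → E) : Prop :=
  ContDiff ℝ ∞ f ∧ ∀ i : ℕ, 1 ≤ i → ∃ C : ℝ, ∀ x : ℝ × ℝ, x.2 < 0 → ‖iteratedFDeriv ℝ i f x‖ ≤ C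

section
variable {E F : Type*} [NormedAddCommGroup E] [NormedSpace ℝ E]
  [NormedAddCommGroup F] [NormedSpace ℝ F]

theorem BD.add {f g : ℝ × ℝ → E} (hf : BD f) (hg : BD g) : BD (f + g) := by
  refine ⟨hf.1.add hg.1, fun i hi => ?_⟩
  obtain ⟨C, hC⟩ := hf.2 i hi
  obtain ⟨D, hD⟩ := hg.2 i hi
  refine ⟨C + D, fun x hx => ?_⟩
  rw [iteratedFDeriv_add_apply (hf.1.contDiffAt.of_le (by exact_mod_cast le_top))
    (hg.1.contDiffAt.of_le (by exact_mod_cast le_top))]
  exact (norm_add_le _ _).trans (add_le_add (hC x hx) (hD x hx))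

theorem BD.const (c : E) : BD (fun _ : ℝ × ℝ => c) := by
  refine ⟨contDiff_const, fun i hi => ⟨0, fun x _ => ?_⟩⟩
  rw [iteratedFDeriv_const_of_ne (by omega) c]
  simp

theorem BD.clm (L : ℝ × ℝ →L[ℝ] E) : BD (fun x => L x) := by
  refine ⟨L.contDiff, fun i hi => ⟨‖L‖, fun x _ => ?_⟩⟩
  obtain ⟨n, rfl⟩ : ∃ n, i = n + 1 := ⟨i - 1, by omega⟩
  rw [← norm_iteratedFDeriv_fderiv]
  have h : fderiv ℝ (fun x => L x) = fun _ : ℝ × ℝ => L := by
    funext y; exact L.fderiv
  rw [h]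
  rcases Nat.eq_zero_or_pos n with hn | hn
  · subst hn
    rw [norm_iteratedFDeriv_zero]
  · rw [iteratedFDeriv_const_of_ne (by omega) L]
    simp

theorem BD.comp_left {f : ℝ × ℝ → E} (hf : BD f) (L : E →L[ℝ] F) : BD (fun x => L (f x)) := by
  refine ⟨L.contDiff.comp hf.1, fun i hi => ?_⟩
  obtain ⟨C, hC⟩ := hf.2 i hi
  refine ⟨‖L‖ * C, fun x hx => ?_⟩
  have h := ContinuousLinearMap.norm_iteratedFDeriv_comp_left L (f := f) (x := x) (N := ∞) (n := i)
    hf.1.contDiffAt (by exact_mod_cast le_top)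
  exact h.trans (mul_le_mul_of_nonneg_left (hC x hx) (norm_nonneg _))

end

theorem gx_LM (hHAD : S_HAD) (hLOGB : S_LOGB) : S_LM := by
  intro X Z lam hW hlam
  -- (a) the axis
  have hZ0 : ∀ φ : ℝ, Z (φ, 0) = (φ, 0) := fun φ => by
    have := hW.left (φ, 0)
    rwa [hW.axis φ] at this
  -- (b) periodicity of `Z`
  have hZper : ∀ φ r : ℝ, Z (φ + 2 * Real.pi, r) = ((Z (φ, r)).1 + 2 * Real.pi, (Z (φ, r)).2) := by
    intro φ r
    have h1 := hW.per (Z (φ, r)).1 (Z (φ, r)).2
    have h2 : X ((Z (φ, r)).1, (Z (φ, r)).2) = (φ, r) := hW.right (φ, r)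
    rw [h2] at h1
    have h3 := congrArg Z h1
    rw [hW.left] at h3
    exact h3.symm
  -- (c) signs
  have hZpos : ∀ φ r : ℝ, 0 < r → 0 < (Z (φ, r)).2 := by
    intro φ r hr
    have h2 : X ((Z (φ, r)).1, (Z (φ, r)).2) = (φ, r) := hW.right (φ, r)
    rcases lt_trichotomy (Z (φ, r)).2 0 with h | h | h
    · have := hW.sgn' (Z (φ, r)).1 _ h
      rw [h2] at this
      exact absurd this (not_lt.2 hr.le)
    · rw [h, hW.axis] at h2
      have := (Prod.ext_iff.1 h2).2
      simp only at this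
      exact absurd this hr.ne
    · exact h
  have hZneg : ∀ φ r : ℝ, r < 0 → (Z (φ, r)).2 < 0 := by
    intro φ r hr
    have h2 : X ((Z (φ, r)).1, (Z (φ, r)).2) = (φ, r) := hW.right (φ, r)
    rcases lt_trichotomy (Z (φ, r)).2 0 with h | h | h
    · exact h
    · rw [h, hW.axis] at h2
      have := (Prod.ext_iff.1 h2).2
      simp only at this
      exact absurd this hr.ne'
    · have := hW.sgn (Z (φ, r)).1 _ h
      rw [h2] at this
      exact absurd this (not_lt.2 hr.le)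
  have hfst : ContDiff ℝ ∞ (fun x : ℝ × ℝ => (Z x).1) := contDiff_fst.comp hW.smZ
  have hsnd : ContDiff ℝ ∞ (fun x : ℝ × ℝ => (Z x).2) := contDiff_snd.comp hW.smZ
  -- (d) Hadamard
  obtain ⟨α, hα, hα'⟩ := hHAD (fun x => (Z x).1 - x.1) (hfst.sub contDiff_fst)
    (fun θ => by simp [hZ0 θ])
  obtain ⟨β, hβ, hβ'⟩ := hHAD (fun x => (Z x).2) hsnd (fun θ => by simp [hZ0 θ])
  obtain ⟨g, hg, hg'⟩ := hHAD (fun x => (X x).2) (contDiff_snd.comp hW.smX)
    (fun θ => by simp [hW.axis θ])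
  have hdense : Dense ({0}ᶜ : Set ℝ) := dense_compl_singleton (0 : ℝ)
  have hmk : ∀ a : ℝ, Continuous (fun r : ℝ => ((a, r) : ℝ × ℝ)) := fun a => by fun_prop
  -- (e) periodicity of `α` and `β`
  have hαper : ∀ θ t : ℝ, α (θ + 2 * Real.pi, t) = α (θ, t) := by
    intro θ t
    have h := Continuous.ext_on hdense (hα.continuous.comp (hmk (θ + 2 * Real.pi)))
      (hα.continuous.comp (hmk θ)) (fun r hr => by
        have hr0 : r ≠ 0 := hr
        have e1 := hα' (θ + 2 * Real.pi) r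
        have e2 := hα' θ r
        rw [hZper] at e1
        simp only [Function.comp_apply]
        simp only at e1 e2
        have e3 : r * α (θ + 2 * Real.pi, r) = r * α (θ, r) := by rw [← e1, ← e2]; ring
        exact mul_left_cancel₀ hr0 e3)
    exact congrFun h t
  have hβper : ∀ θ t : ℝ, β (θ + 2 * Real.pi, t) = β (θ, t) := by
    intro θ t
    have h := Continuous.ext_on hdense (hβ.continuous.comp (hmk (θ + 2 * Real.pi)))
      (hβ.continuous.comp (hmk θ)) (fun r hr => by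
        have hr0 : r ≠ 0 := hr
        have e1 := hβ' (θ + 2 * Real.pi) r
        have e2 := hβ' θ r
        rw [hZper] at e1
        simp only [Function.comp_apply]
        simp only at e1 e2
        have e3 : r * β (θ + 2 * Real.pi, r) = r * β (θ, r) := by rw [← e1, ← e2]
        exact mul_left_cancel₀ hr0 e3)
    exact congrFun h t
  -- (f) positivity of `β`
  have hβne : ∀ x : ℝ × ℝ, β x ≠ 0 := by
    intro x
    obtain ⟨φ, r⟩ := x
    have h := Continuous.ext_on hdense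
      ((hβ.continuous.comp (hmk φ)).mul ((hg.continuous.comp hW.smZ.continuous).comp (hmk φ)))
      (continuous_const (y := (1 : ℝ))) (fun r hr => by
        have hr0 : r ≠ 0 := hr
        have e1 := hβ' φ r
        have e2 := hg' (Z (φ, r)).1 (Z (φ, r)).2
        have h2 : X ((Z (φ, r)).1, (Z (φ, r)).2) = (φ, r) := hW.right (φ, r)
        rw [h2] at e2
        simp only [Prod.mk.eta] at e2
        have e3 : r * (β (φ, r) * g (Z (φ, r))) = r * 1 := by
          rw [← mul_assoc, ← e1, ← e2, mul_one]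
        exact mul_left_cancel₀ hr0 e3)
    have h3 := congrFun h r
    simp only [Pi.mul_apply, Function.comp_apply] at h3
    intro h0
    rw [h0, zero_mul] at h3
    exact zero_ne_one h3
  have hβnn : ∀ x : ℝ × ℝ, 0 ≤ β x := by
    intro x
    obtain ⟨φ, r⟩ := x
    have hcl : IsClosed {r : ℝ | 0 ≤ β (φ, r)} :=
      isClosed_le continuous_const (hβ.continuous.comp (hmk φ))
    have hsub : ({0}ᶜ : Set ℝ) ⊆ {r : ℝ | 0 ≤ β (φ, r)} := by
      intro r hr
      have hr0 : r ≠ 0 := hr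
      have e1 := hβ' φ r
      rcases lt_or_gt_of_ne hr0 with h | h
      · have h2 := hZneg φ r h
        rw [e1] at h2
        by_contra hc
        have hc' : β (φ, r) < 0 := lt_of_not_ge hc
        have := mul_pos_of_neg_of_neg h hc'
        linarith
      · have h2 := hZpos φ r h
        rw [e1] at h2
        exact ((mul_pos_iff_of_pos_left h).1 h2).le
    exact (hcl.closure_subset_iff.2 hsub) (hdense r)
  have hβpos : ∀ x : ℝ × ℝ, 0 < β x := fun x => lt_of_le_of_ne (hβnn x) (hβne x).symm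
  have hlog : ContDiff ℝ ∞ (fun x => Real.log (β x)) := hβ.log hβne
  have hlogper : ∀ θ t : ℝ, (fun x => Real.log (β x)) (θ + 2 * Real.pi, t) =
      (fun x => Real.log (β x)) (θ, t) := fun θ t => by simp only [hβper]
  -- (g) the formula
  have hform : Lm Z lam = fun x : ℝ × ℝ =>
      (x.1 + Real.exp x.2 ^ 1 * α (x.1, 1 * Real.exp x.2),
        x.2 + Real.exp x.2 ^ 0 * Real.log (β (x.1, 1 * Real.exp x.2)) - Real.log lam) := by
    funext x
    have e1 := hα' x.1 (Real.exp x.2)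
    have e2 := hβ' x.1 (Real.exp x.2)
    simp only at e1 e2
    unfold Lm
    rw [e2]
    ext
    · simp only [one_mul, pow_one]
      linarith
    · simp only [one_mul, pow_zero]
      rw [Real.log_div (mul_pos (Real.exp_pos _) (hβpos _)).ne' hlam.ne',
        Real.log_mul (Real.exp_pos _).ne' (hβne _), Real.log_exp]
  have hA := hLOGB α 1 1 one_pos hα hαper
  have hB := hLOGB (fun x => Real.log (β x)) 1 0 one_pos hlog hlogper
  have hmap : ContDiff ℝ ∞ (fun x : ℝ × ℝ => ((x.1, 1 * Real.exp x.2) : ℝ × ℝ)) := by fun_prop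
  have hF1 : BD (fun x : ℝ × ℝ => Real.exp x.2 ^ 1 * α (x.1, 1 * Real.exp x.2)) := by
    refine ⟨?_, fun i _ => ?_⟩
    · exact ((Real.contDiff_exp.comp contDiff_snd).pow 1).mul (hα.comp hmap)
    · obtain ⟨C, hC⟩ := hA i
      refine ⟨|C|, fun x hx => (hC x hx.le).trans ?_⟩
      have h1 : Real.exp (((1 : ℕ) : ℝ) * x.2) ≤ 1 := by
        rw [Nat.cast_one, one_mul]; exact Real.exp_le_one_iff.2 hx.le
      calc C * Real.exp (((1 : ℕ) : ℝ) * x.2) ≤ |C| * Real.exp (((1 : ℕ) : ℝ) * x.2) :=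
            mul_le_mul_of_nonneg_right (le_abs_self C) (Real.exp_pos _).le
        _ ≤ |C| * 1 := mul_le_mul_of_nonneg_left h1 (abs_nonneg C)
        _ = |C| := mul_one _
  have hF2 : BD (fun x : ℝ × ℝ => Real.exp x.2 ^ 0 * Real.log (β (x.1, 1 * Real.exp x.2))) := by
    refine ⟨?_, fun i _ => ?_⟩
    · exact ((Real.contDiff_exp.comp contDiff_snd).pow 0).mul (hlog.comp hmap)
    · obtain ⟨C, hC⟩ := hB i
      refine ⟨C, fun x hx => (hC x hx.le).trans ?_⟩
      simp
  have hBD : BD (Lm Z lam) := by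
    have h1 : BD (fun x : ℝ × ℝ => ((ContinuousLinearMap.fst ℝ ℝ ℝ : ℝ × ℝ →L[ℝ] ℝ) x)) := BD.clm _
    have h2 : BD (fun x : ℝ × ℝ => ((ContinuousLinearMap.snd ℝ ℝ ℝ : ℝ × ℝ →L[ℝ] ℝ) x)) := BD.clm _
    have h3 := (h1.add hF1).comp_left (ContinuousLinearMap.inl ℝ ℝ ℝ)
    have h4 := ((h2.add hF2).add (BD.const (-Real.log lam))).comp_left
      (ContinuousLinearMap.inr ℝ ℝ ℝ)
    have h5 := h3.add h4
    have h6 : Lm Z lam = ((fun x : ℝ × ℝ => (ContinuousLinearMap.inl ℝ ℝ ℝ)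
        (((fun x : ℝ × ℝ => ((ContinuousLinearMap.fst ℝ ℝ ℝ : ℝ × ℝ →L[ℝ] ℝ) x)) +
          (fun x : ℝ × ℝ => Real.exp x.2 ^ 1 * α (x.1, 1 * Real.exp x.2))) x)) +
        (fun x : ℝ × ℝ => (ContinuousLinearMap.inr ℝ ℝ ℝ)
        ((((fun x : ℝ × ℝ => ((ContinuousLinearMap.snd ℝ ℝ ℝ : ℝ × ℝ →L[ℝ] ℝ) x)) +
          (fun x : ℝ × ℝ => Real.exp x.2 ^ 0 * Real.log (β (x.1, 1 * Real.exp x.2)))) +
          (fun _ : ℝ × ℝ => -Real.log lam)) x))) := by
      rw [hform]
      funext x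
      ext
      · simp
      · simp [sub_eq_add_neg]
    rw [h6]
    exact h5
  refine ⟨hBD.1.contDiffOn, hBD.2, ?_⟩
  obtain ⟨C1, hC1⟩ := hA 0
  obtain ⟨C2, hC2⟩ := hB 0
  refine ⟨|C1| + |C2| + |Real.log lam| + 1, by positivity, fun x hx => ?_⟩
  have k1 := hC1 x hx.le
  have k2 := hC2 x hx.le
  rw [norm_iteratedFDeriv_zero, Real.norm_eq_abs] at k1 k2
  simp only [Nat.cast_one, one_mul, Nat.cast_zero, zero_mul, Real.exp_zero, mul_one, pow_one,
    pow_zero] at k1 k2
  rw [hform]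
  simp only [one_mul, pow_one, pow_zero, add_sub_cancel_left]
  constructor
  · refine k1.trans (mul_le_mul_of_nonneg_right ?_ (Real.exp_pos _).le)
    have := le_abs_self C1
    have := abs_nonneg C2
    have := abs_nonneg (Real.log lam)
    linarith
  · have e : x.2 + Real.log (β (x.1, Real.exp x.2)) - Real.log lam - x.2 =
        Real.log (β (x.1, Real.exp x.2)) - Real.log lam := by ring
    rw [e]
    refine (abs_sub _ _).trans ?_
    have := le_abs_self C2
    have := abs_nonneg C1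
    linarith

end Pool.Agent.H261.GX
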